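import Pool.Agent.H405.CW.Slope

/-! # Project CW (helper964), task LTC: the core of the lower tail estimate -/

set_option autoImplicit false

open MeasureTheory ProbabilityTheory Filter Finset

namespace Pool.Agent.H405.CW

open Pool.Agent.H964.QC Pool.Agent.H964.CW

variable {C0 : ℝ} {N0 M : ℕ} [NeZero M]

open scoped Classical in
/-- the tube -/
noncomputable def ch (M : ℕ) (K r a : ℝ) (T l : ℕ) (x0 : ℝ) (j : ℕ) (z : ZMod M × ZMod M) : ℝ :=
  if |(X1 z : ℝ) - cc K r T l x0 j| < bw K r a T j then 1 else 0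

/-- the killed partition function of a strip -/
noncomputable def QQ (W : Wlk (ZMod M × ZMod M) C0 N0) (K r a : ℝ) (T l : ℕ) (w : ZMod M × ZMod M → ℝ)
    (lo hi : ℤ) (x : ℕ → ZMod M × ZMod M → ℝ) : ℝ :=
  ∑ y, strip w lo hi y * dz W (AA K r T l) (ch M K r a T l (X1 y : ℝ)) x T y

open scoped Classical in
/-- the sites which are used -/
noncomputable def SI (M : ℕ) [NeZero M] (K r a : ℝ) (T l : ℕ) (lo hi : ℤ) :
    Finset (ℕ × (ZMod M × ZMod M)) :=
  ((range T) ×ˢ (univ : Finset (ZMod M × ZMod M))).filter (fun p =>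
    (lo : ℝ) + l * th K r (T - p.1) - bw K r a T p.1 < (X1 p.2 : ℝ) ∧
    (X1 p.2 : ℝ) < (hi : ℝ) + l * th K r (T - p.1) + bw K r a T p.1)

open scoped Classical in
/-- the sites which are used, shifted -/
noncomputable def SI' (M : ℕ) [NeZero M] (K r a : ℝ) (T l : ℕ) (lo hi : ℤ) :
    Finset (ℕ × (ZMod M × ZMod M)) :=
  (SI M K r a T l lo hi).image (fun p => (p.1 + 1, p.2))

theorem mem_SI' (K r a : ℝ) (T l : ℕ) (lo hi : ℤ) (n : ℕ) (z : ZMod M × ZMod M) :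
    (n + 1, z) ∈ SI' M K r a T l lo hi ↔ n < T ∧
      (lo : ℝ) + l * th K r (T - n) - bw K r a T n < (X1 z : ℝ) ∧
      (X1 z : ℝ) < (hi : ℝ) + l * th K r (T - n) + bw K r a T n := by
  unfold SI' SI
  simp only [mem_image, mem_filter, mem_product, mem_range, mem_univ, and_true, Prod.mk.injEq]
  constructor
  · rintro ⟨⟨n', z'⟩, ⟨h1, h2⟩, h3, h4⟩
    dsimp only at h1 h2 h3 h4
    have h5 : n' = n := by omega
    subst h5
    subst h4
    exact ⟨h1, h2⟩
  · rintro ⟨h1, h2⟩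
    exact ⟨(n, z), ⟨h1, h2⟩, rfl, rfl⟩

theorem not_mem_SI'_zero (K r a : ℝ) (T l : ℕ) (lo hi : ℤ) (z : ZMod M × ZMod M) :
    (0, z) ∉ SI' M K r a T l lo hi := by
  unfold SI'
  simp only [mem_image, Prod.mk.injEq, not_exists, not_and]
  intro p _ h
  omega

/-- different strips use different sites -/
theorem SI'_disj {K r a : ℝ} (hK : 0 ≤ K) {T l l' : ℕ} {lo hi lo' hi' : ℤ} {a' : ℕ} (ha : a = (a' : ℝ))
    (hll : l < l') (h : hi + a' ≤ lo') :
    Disjoint (SI' M K r a T l lo hi) (SI' M K r a T l' lo' hi') := by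
  rw [Finset.disjoint_left]
  rintro ⟨n, z⟩ h1 h2
  rcases n with _ | n
  · exact not_mem_SI'_zero K r a T l lo hi z h1
  · rw [mem_SI'] at h1 h2
    obtain ⟨_, _, h3⟩ := h1
    obtain ⟨_, h4, _⟩ := h2
    have h5 : (hi : ℝ) + a ≤ lo' := by
      rw [ha]
      exact_mod_cast h
    have h6 : (l : ℝ) + 1 ≤ l' := by exact_mod_cast hll
    have h7 := th_nonneg (r := r) hK (T - n)
    unfold bw at h3 h4
    nlinarith

omit [NeZero M] in
theorem strip_nonneg {w : ZMod M × ZMod M → ℝ} (hw : ∀ z, 0 ≤ w z) (lo hi : ℤ) (z : ZMod M × ZMod M) :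
    0 ≤ strip w lo hi z := by
  unfold strip
  split_ifs
  · exact hw z
  · exact le_rfl

omit [NeZero M] in
theorem strip_le {w : ZMod M × ZMod M → ℝ} (hw : ∀ z, 0 ≤ w z) (lo hi : ℤ) (z : ZMod M × ZMod M) :
    strip w lo hi z ≤ w z := by
  unfold strip
  split_ifs
  · exact le_rfl
  · exact hw z

omit [NeZero M] in
theorem strip_ne {w : ZMod M × ZMod M → ℝ} {lo hi : ℤ} {z : ZMod M × ZMod M} (h : strip w lo hi z ≠ 0) :
    (lo ≤ X1 z ∧ X1 z ≤ hi) ∧ w z ≠ 0 := by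
  unfold strip at h
  split_ifs at h with h1
  · exact ⟨h1, h⟩
  · exact absurd rfl h

theorem ch_nonneg (M : ℕ) (K r a : ℝ) (T l : ℕ) (x0 : ℝ) (j : ℕ) (z : ZMod M × ZMod M) :
    0 ≤ ch M K r a T l x0 j z := by
  unfold ch
  split_ifs <;> norm_num

theorem ch_le (M : ℕ) (K r a : ℝ) (T l : ℕ) (x0 : ℝ) (j : ℕ) (z : ZMod M × ZMod M) :
    ch M K r a T l x0 j z ≤ 1 := by
  unfold ch
  split_ifs <;> norm_num

omit [NeZero M] in
theorem ch_ne {K r a : ℝ} {T l : ℕ} {x0 : ℝ} {j : ℕ} {z : ZMod M × ZMod M}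
    (h : ch M K r a T l x0 j z ≠ 0) : |(X1 z : ℝ) - cc K r T l x0 j| < bw K r a T j := by
  unfold ch at h
  split_ifs at h with h1
  · exact h1
  · exact absurd rfl h

omit [NeZero M] in
theorem ch_one {K r a : ℝ} {T l : ℕ} {x0 : ℝ} {j : ℕ} {z : ZMod M × ZMod M}
    (h : |(X1 z : ℝ) - cc K r T l x0 j| < bw K r a T j) : ch M K r a T l x0 j z = 1 := by
  unfold ch
  rw [if_pos h]

/-- the killed partition function of a strip only depends on the sites of the strip -/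
theorem QQ_dep (hDZB : S_DZB) (W : Wlk (ZMod M × ZMod M) C0 N0) (hW : IsTor W) {K r a : ℝ} {T l : ℕ}
    (hA : ∀ j, |AA K r T l j| ≤ 1)
    (w : ZMod M × ZMod M → ℝ) (lo hi : ℤ) (x x' : ℕ → ZMod M × ZMod M → ℝ)
    (hx : ∀ n v, (n, v) ∈ SI' M K r a T l lo hi → x n v = x' n v) :
    QQ W K r a T l w lo hi x = QQ W K r a T l w lo hi x' := by
  unfold QQ
  refine sum_congr rfl fun y _ => ?_
  rcases eq_or_ne (strip w lo hi y) 0 with h0 | h0
  · rw [h0, zero_mul, zero_mul]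
  obtain ⟨⟨hy1, hy2⟩, -⟩ := strip_ne h0
  congr 1
  refine (hDZB C0 N0 M W hW (AA K r T l) (ch M K r a T l (X1 y : ℝ)) hA (ch_nonneg M K r a T l _)
    (ch_le M K r a T l _)).2.2.1 x x' T y fun j z hj hz => hx (j + 1) z ?_
  rw [mem_SI']
  have h1 := ch_ne hz
  unfold cc at h1
  rw [SS_diff' T l j hj.le, abs_lt] at h1
  have h2 : (lo : ℝ) ≤ X1 y := by exact_mod_cast hy1
  have h3 : (X1 y : ℝ) ≤ hi := by exact_mod_cast hy2
  refine ⟨hj, ?_, ?_⟩
  · linarith [h1.1]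
  · linarith [h1.2]

theorem t_LTC : S_LTC := by
  intro hDZB hDSM hNB hIND hMEAS hCMP hSUR hPRD hPZ
  refine ⟨220, by norm_num, ?_⟩
  intro C0 N0 M _ W hW Ω _ P _ s2 κ s' η w t T m a lo hi Lg a0 μ0 D hs2 hη hT hm ha htT hw hwt hlohi
    hsep hLg ha0 ha0' hs' hμ0 hmass hD hbb
  have haR : (0 : ℝ) < a := by exact_mod_cast ha
  obtain ⟨r, hr⟩ : ∃ r : ℝ, r = (a : ℝ) / 8 := ⟨_, rfl⟩
  obtain ⟨K, hK⟩ : ∃ K : ℝ, K = 10 * Real.sqrt Lg := ⟨_, rfl⟩
  have hr0 : 0 < r := by rw [hr]; positivity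
  have hK0 : 0 ≤ K := by rw [hK]; positivity
  have hL2 : 1 / 2 ≤ Lg := by
    have h1 : Real.log 2 ≤ Lg := by
      rw [hLg]
      refine Real.log_le_log (by norm_num) ?_
      have : 0 ≤ 64 * (T : ℝ) / (a : ℝ) ^ 2 := by positivity
      linarith
    linarith [Real.log_two_gt_d9]
  have hm1 : (1 : ℝ) ≤ m := by exact_mod_cast hm
  have ha00 : 0 ≤ a0 := le_trans (by positivity) ha0
  have hKr : ∀ l : ℕ, l ≤ m → (l : ℝ) * (K / r) ≤ a0 := by
    intro l hl
    have h1 : K / r = 80 * Real.sqrt Lg / a := by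
      rw [hK, hr]
      field_simp
      norm_num
    rw [h1]
    refine le_trans ?_ ha0
    have h2 : (l : ℝ) ≤ m := by exact_mod_cast hl
    calc (l : ℝ) * (80 * Real.sqrt Lg / a) ≤ m * (80 * Real.sqrt Lg / a) :=
          mul_le_mul_of_nonneg_right h2 (by positivity)
      _ = 80 * m * Real.sqrt Lg / a := by ring
  have hA0 : ∀ (l : ℕ), l ≤ m → ∀ j, |AA K r T l j| ≤ a0 := by
    intro l hl j
    rw [abs_of_nonneg (AA_nonneg hK0 T l j)]
    exact (AA_le hK0 hr0 T l j).trans (hKr l hl)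
  have hA1 : ∀ (l : ℕ), l ≤ m → ∀ j, |AA K r T l j| ≤ 1 := fun l hl j =>
    (hA0 l hl j).trans (by linarith)
  have hlm : ∀ i : Fin m, (i : ℕ) ≤ m := fun i => i.2.le
  have hN : T ≤ N0 := by omega
  -- the starting points
  have hX : ∀ (i : Fin m) y, strip w (lo i) (hi i) y ≠ 0 → |X1 y| + (T : ℤ) ≤ 2 * N0 := by
    intro i y hy
    have h1 := hwt y (strip_ne hy).2
    have h2 : ((t : ℤ) + T) ≤ N0 := by exact_mod_cast htT
    have h3 : (0 : ℤ) ≤ N0 := by positivity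
    linarith
  -- abbreviations
  obtain ⟨Q, hQ⟩ : ∃ Q : Fin m → (ℕ → ZMod M × ZMod M → ℝ) → ℝ, ∀ i x,
    Q i x = QQ W K r a T i w (lo i) (hi i) x := ⟨_, fun _ _ => rfl⟩
  obtain ⟨S, hS⟩ : ∃ S : Fin m → Finset (ℕ × (ZMod M × ZMod M)), ∀ i,
    S i = SI' M K r a T i (lo i) (hi i) := ⟨_, fun _ => rfl⟩
  obtain ⟨mass, hms⟩ : ∃ mass : Fin m → ℝ, ∀ i, mass i = ∑ z, strip w (lo i) (hi i) z := ⟨_, fun _ => rfl⟩
  have hmp : ∀ i, 0 < mass i := fun i => lt_of_lt_of_le hμ0 (by rw [hms]; exact hmass i)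
  have hD2 : ∀ (i : Fin m) (x0 : ℝ), _ := fun i x0 => hDZB C0 N0 M W hW (AA K r T i)
    (ch M K r a T i x0) (hA1 i (hlm i)) (ch_nonneg M K r a T i x0) (ch_le M K r a T i x0)
  have hD1 : ∀ (i : Fin m), _ := fun i => hDZB C0 N0 M W hW (AA K r T i)
    (fun _ _ => 1) (hA1 i (hlm i)) (fun _ _ => zero_le_one) (fun _ _ => le_rfl)
  have hQm : ∀ i, Measurable (Q i) := by
    intro i
    have : Q i = fun x => QQ W K r a T i w (lo i) (hi i) x := funext fun x => hQ i x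
    rw [this]
    unfold QQ
    exact Finset.measurable_sum _ fun y _ => ((hD2 i (X1 y : ℝ)).2.1 T y).const_mul _
  have hQd : ∀ i (x x' : ℕ → ZMod M × ZMod M → ℝ), (∀ n v, (n, v) ∈ S i → x n v = x' n v) →
      Q i x = Q i x' := by
    intro i x x' h
    rw [hQ, hQ]
    exact QQ_dep hDZB W hW (hA1 i (hlm i)) w (lo i) (hi i) x x' (by rwa [hS] at h)
  have hSd : ∀ i j, i ≠ j → Disjoint (S i) (S j) := by
    intro i j hij
    rw [hS, hS]
    rcases lt_or_gt_of_ne hij with h | h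
    · exact SI'_disj hK0 rfl h (hsep i j h)
    · exact (SI'_disj hK0 rfl h (hsep j i h)).symm
  have hprod := hPRD (ZMod M × ZMod M) Ω P s2 κ η hη m Q S (fun i => mass i / 4) hQm hQd hSd
  -- each factor
  have hfac : ∀ i, P.real {ω | Q i (cfg η ω) < mass i / 4} ≤ 1 - 1 / (16 * D) := by
    intro i
    have hu := strip_nonneg hw (lo i) (hi i)
    have hgt : ∀ ω, ∀ n v, -1 < cfg η ω n v := fun ω n v => hη.gt n v ω
    have hL4 : ∀ y, MemLp (fun ω => strip w (lo i) (hi i) y *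
        dz W (AA K r T i) (ch M K r a T i (X1 y : ℝ)) (cfg η ω) T y) 2 P := fun y =>
      (((hD2 i (X1 y : ℝ)).2.2.2 Ω P s2 κ η hη T y).1.mono_exponent (by norm_num)).const_mul _
    have hL4' : ∀ y, MemLp (fun ω => strip w (lo i) (hi i) y *
        dz W (AA K r T i) (fun _ _ => 1) (cfg η ω) T y) 2 P := fun y =>
      (((hD1 i).2.2.2 Ω P s2 κ η hη T y).1.mono_exponent (by norm_num)).const_mul _
    have hLp : MemLp (fun ω => Q i (cfg η ω)) 2 P := by
      have h1 := memLp_finsetSum (μ := P) (p := 2) univ (f := fun y ω => strip w (lo i) (hi i) y *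
        dz W (AA K r T i) (ch M K r a T i (X1 y : ℝ)) (cfg η ω) T y) fun y _ => hL4 y
      refine h1.congr_norm ?_ ?_
      · exact ((hQm i).comp ((hMEAS (ZMod M × ZMod M) C0 N0 W Ω P s2 κ η hη).2.2.2.2.2.2.1)).aestronglyMeasurable
      · exact ae_of_all _ fun ω => by rw [hQ]; rfl
    have hLp' : MemLp (fun ω => ∑ y, strip w (lo i) (hi i) y *
        dz W (AA K r T i) (fun _ _ => 1) (cfg η ω) T y) 2 P := by
      have h1 := memLp_finsetSum (μ := P) (p := 2) univ (f := fun y ω => strip w (lo i) (hi i) y *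
        dz W (AA K r T i) (fun _ _ => 1) (cfg η ω) T y) fun y _ => hL4' y
      exact h1
    have hQ0 : ∀ ω, 0 ≤ Q i (cfg η ω) := by
      intro ω
      rw [hQ]
      exact sum_nonneg fun y _ => mul_nonneg (hu y) ((hD2 i (X1 y : ℝ)).1 _ (hgt ω) T y).1
    have hQ1 : ∀ ω, Q i (cfg η ω) ≤ ∑ y, strip w (lo i) (hi i) y *
        dz W (AA K r T i) (fun _ _ => 1) (cfg η ω) T y := by
      intro ω
      rw [hQ]
      exact sum_le_sum fun y _ => mul_le_mul_of_nonneg_left ((hD2 i (X1 y : ℝ)).1 _ (hgt ω) T y).2 (hu y)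
    have hmean : mass i / 2 ≤ ∫ ω, Q i (cfg η ω) ∂P := by
      have h1 : ∫ ω, Q i (cfg η ω) ∂P = ∑ y, strip w (lo i) (hi i) y *
          dz W (AA K r T i) (ch M K r a T i (X1 y : ℝ)) (fun _ _ => 0) T y := by
        have h2 : (fun ω => Q i (cfg η ω)) = fun ω => ∑ y, strip w (lo i) (hi i) y *
            dz W (AA K r T i) (ch M K r a T i (X1 y : ℝ)) (cfg η ω) T y := funext fun ω => hQ i _
        rw [h2, integral_finsetSum _ fun y _ => (hL4 y).integrable (by norm_num)]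
        refine sum_congr rfl fun y _ => ?_
        rw [integral_const_mul, ((hD2 i (X1 y : ℝ)).2.2.2 Ω P s2 κ η hη T y).2]
      rw [h1, hms, sum_div]
      refine sum_le_sum fun y _ => ?_
      rcases eq_or_ne (strip w (lo i) (hi i) y) 0 with h0 | h0
      · rw [h0]
        simp
      · have h3 := hSUR C0 N0 M W hW (AA K r T i) (cc K r T i (X1 y : ℝ)) (bw K r a T)
          (ch M K r a T i (X1 y : ℝ)) (hA1 i (hlm i)) (cc_step T i _) (bw_anti hK0 _ T)
          (bw_pos hK0 haR T) (ch_nonneg M K r a T i _) (fun j z h => ch_one h) T y (hX i y h0)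
        rw [cc_top, sub_self, zero_div] at h3
        have h4 := surv T haR hr hLg hL2 hK
        have h5 : 1 / 2 ≤ dz W (AA K r T i) (ch M K r a T i (X1 y : ℝ)) (fun _ _ => 0) T y := by
          have h6 : (0 : ℝ) ^ 2 = 0 := by norm_num
          rw [h6] at h3
          linarith
        have h7 := mul_le_mul_of_nonneg_left h5 (hu y)
        linarith
    have hsec : ∫ ω, Q i (cfg η ω) ^ 2 ∂P ≤ D * mass i ^ 2 := by
      have h1 := hDSM hNB hDZB hIND C0 N0 M W hW (AA K r T i) a0 T (strip w (lo i) (hi i)) ha00 ha0'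
        (hA0 i (hlm i)) hN hu Ω P s2 κ s' η hs2 hη hs'
      have h2 : ∫ ω, Q i (cfg η ω) ^ 2 ∂P ≤ ∫ ω, (∑ y, strip w (lo i) (hi i) y *
          dz W (AA K r T i) (fun _ _ => 1) (cfg η ω) T y) ^ 2 ∂P :=
        integral_mono hLp.integrable_sq hLp'.integrable_sq fun ω => pow_le_pow_left₀ (hQ0 ω) (hQ1 ω) 2
      have h3 := hbb i
      rw [← hms] at h1 h3
      linarith
    have hmi := hmp i
    exact hPZ Ω P (fun ω => Q i (cfg η ω)) (mass i) D hLp hQ0 hmi hD hmean hsec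
  -- the event
  have hsub : {ω | ∑ z, w z * Zr W (cfg η ω) T z < μ0 / 4 * Real.exp (-(220 * (m : ℝ) ^ 2 * Lg ^ 2))} ⊆
      {ω | ∀ i, Q i (cfg η ω) < mass i / 4} := by
    intro ω hω i
    by_contra hcon
    rw [not_lt] at hcon
    have hω' : ∑ z, w z * Zr W (cfg η ω) T z < μ0 / 4 * Real.exp (-(220 * (m : ℝ) ^ 2 * Lg ^ 2)) := hω
    have hgt : ∀ n v, -1 < cfg η ω n v := fun n v => hη.gt n v ω
    have hZ : ∀ y, 0 < Zr W (cfg η ω) T y := fun y =>
      (hMEAS (ZMod M × ZMod M) C0 N0 W Ω P s2 κ η hη).2.1 _ T y hgt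
    have hle : Q i (cfg η ω) ≤ Real.exp (220 * (m : ℝ) ^ 2 * Lg ^ 2) * ∑ z, w z * Zr W (cfg η ω) T z := by
      rw [hQ, mul_sum]
      unfold QQ
      refine sum_le_sum fun y _ => ?_
      rcases eq_or_ne (strip w (lo i) (hi i) y) 0 with h0 | h0
      · rw [h0, zero_mul]
        exact mul_nonneg (Real.exp_pos _).le (mul_nonneg (hw y) (hZ y).le)
      · have h1 := hCMP C0 N0 M W hW (AA K r T i) (fun j => cc K r T i (X1 y : ℝ) j + bw K r a T j - X1 y)
          (X1 y : ℝ) (ch M K r a T i (X1 y : ℝ)) (cfg η ω) (AA_zero T i) (AA_mono hK0 hr0 T i)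
          (fun j => (le_abs_self _).trans ((hA0 i (hlm i) j).trans ha0')) (ch_nonneg M K r a T i _)
          (ch_le M K r a T i _) (fun j z hz => by
            have h2 := (abs_lt.1 (ch_ne hz)).2
            linarith) hgt T y (hX i y h0)
        rw [sub_self, mul_zero, sub_zero] at h1
        have h3 := cost (x0 := (X1 y : ℝ)) T i m (hlm i) i.2 hT haR hr hLg hL2 hK
        have h4 : dz W (AA K r T i) (ch M K r a T i (X1 y : ℝ)) (cfg η ω) T y ≤
            Real.exp (220 * (m : ℝ) ^ 2 * Lg ^ 2) * Zr W (cfg η ω) T y :=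
          h1.trans (mul_le_mul_of_nonneg_right (Real.exp_le_exp.2 h3) (hZ y).le)
        calc strip w (lo i) (hi i) y * dz W (AA K r T i) (ch M K r a T i (X1 y : ℝ)) (cfg η ω) T y
            ≤ w y * (Real.exp (220 * (m : ℝ) ^ 2 * Lg ^ 2) * Zr W (cfg η ω) T y) :=
              mul_le_mul (strip_le hw _ _ y) h4
                ((hD2 i (X1 y : ℝ)).1 _ hgt T y).1 (hw y)
          _ = Real.exp (220 * (m : ℝ) ^ 2 * Lg ^ 2) * (w y * Zr W (cfg η ω) T y) := by ring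
    have hμ : μ0 ≤ mass i := by rw [hms]; exact hmass i
    have hexp : Real.exp (-(220 * (m : ℝ) ^ 2 * Lg ^ 2)) * Real.exp (220 * (m : ℝ) ^ 2 * Lg ^ 2) = 1 := by
      rw [← Real.exp_add, neg_add_cancel, Real.exp_zero]
    have h5 : Real.exp (220 * (m : ℝ) ^ 2 * Lg ^ 2) * ∑ z, w z * Zr W (cfg η ω) T z <
        Real.exp (220 * (m : ℝ) ^ 2 * Lg ^ 2) * (μ0 / 4 * Real.exp (-(220 * (m : ℝ) ^ 2 * Lg ^ 2))) :=
      mul_lt_mul_of_pos_left hω' (Real.exp_pos _)
    have h6 : Real.exp (220 * (m : ℝ) ^ 2 * Lg ^ 2) * (μ0 / 4 * Real.exp (-(220 * (m : ℝ) ^ 2 * Lg ^ 2))) =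
        μ0 / 4 := by
      rw [mul_comm, mul_assoc, hexp, mul_one]
    linarith
  calc P.real {ω | ∑ z, w z * Zr W (cfg η ω) T z < μ0 / 4 * Real.exp (-(220 * (m : ℝ) ^ 2 * Lg ^ 2))}
      ≤ P.real {ω | ∀ i, Q i (cfg η ω) < mass i / 4} := measureReal_mono hsub
    _ = ∏ i, P.real {ω | Q i (cfg η ω) < mass i / 4} := hprod
    _ ≤ ∏ i : Fin m, (1 - 1 / (16 * D)) :=
        prod_le_prod (fun i _ => measureReal_nonneg) fun i _ => hfac i
    _ = (1 - 1 / (16 * D)) ^ m := by simp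

end Pool.Agent.H405.CW
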