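import Pool.Agent.H964.CW.Stm

/-! # Project CW (helper964), task LTC: the slopes -/

set_option autoImplicit false

open MeasureTheory ProbabilityTheory Filter Finset

namespace Pool.Agent.H405.CW

/-- the slopes -/
noncomputable def gg (K r : ℝ) (k : ℕ) : ℝ := K / Real.sqrt (r ^ 2 + k)

/-- sums of slopes -/
noncomputable def th (K r : ℝ) (k : ℕ) : ℝ := ∑ i ∈ range k, gg K r (i + 1)

/-- the drift with the label `l` -/
noncomputable def AA (K r : ℝ) (T l : ℕ) (j : ℕ) : ℝ := if j = 0 then 0 else l * gg K r (T + 1 - j)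

/-- sums of the drift -/
noncomputable def SS (K r : ℝ) (T l : ℕ) (j : ℕ) : ℝ := ∑ i ∈ range j, AA K r T l (i + 1)

/-- half widths -/
noncomputable def bw (K r a : ℝ) (T j : ℕ) : ℝ := (th K r (T - j) + a) / 2

/-- centres -/
noncomputable def cc (K r : ℝ) (T l : ℕ) (x0 : ℝ) (j : ℕ) : ℝ := x0 + (SS K r T l T - SS K r T l j)

variable {K r : ℝ}

theorem gg_nonneg (hK : 0 ≤ K) (k : ℕ) : 0 ≤ gg K r k := div_nonneg hK (Real.sqrt_nonneg _)

theorem gg_anti (hK : 0 ≤ K) (hr : 0 < r) : Antitone (gg K r) := by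
  intro i j hij
  have h : (i : ℝ) ≤ j := by exact_mod_cast hij
  have h1 : 0 < r ^ 2 := by positivity
  have h2 : (0 : ℝ) ≤ i := Nat.cast_nonneg i
  exact div_le_div_of_nonneg_left hK (Real.sqrt_pos.2 (by linarith)) (Real.sqrt_le_sqrt (by linarith))

theorem gg_zero (hr : 0 < r) : gg K r 0 = K / r := by
  unfold gg
  rw [Nat.cast_zero, add_zero, Real.sqrt_sq hr.le]

theorem gg_le (hK : 0 ≤ K) (hr : 0 < r) (k : ℕ) : gg K r k ≤ K / r := by
  rw [← gg_zero hr]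
  exact gg_anti hK hr (Nat.zero_le k)

theorem gg_sq (hr : 0 < r) (k : ℕ) : gg K r k ^ 2 = K ^ 2 / (r ^ 2 + k) := by
  unfold gg
  rw [div_pow, Real.sq_sqrt (by positivity)]

theorem th_zero : th K r 0 = 0 := by simp [th]

theorem th_succ (k : ℕ) : th K r (k + 1) = th K r k + gg K r (k + 1) := by
  unfold th
  rw [sum_range_succ]

theorem th_mono (hK : 0 ≤ K) : Monotone (th K r) :=
  monotone_nat_of_le_succ fun k => by
    rw [th_succ]
    linarith [gg_nonneg (r := r) hK (k + 1)]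

theorem th_nonneg (hK : 0 ≤ K) (k : ℕ) : 0 ≤ th K r k :=
  sum_nonneg fun i _ => gg_nonneg hK (i + 1)

theorem th_low (hK : 0 ≤ K) (hr : 0 < r) (k : ℕ) : k * gg K r k ≤ th K r k := by
  unfold th
  calc (k : ℝ) * gg K r k = ∑ i ∈ range k, gg K r k := by simp
    _ ≤ ∑ i ∈ range k, gg K r (i + 1) :=
      sum_le_sum fun i hi => gg_anti hK hr (by have := mem_range.1 hi; omega)

theorem AA_zero (T l : ℕ) : AA K r T l 0 = 0 := by simp [AA]

theorem AA_succ (T l j : ℕ) : AA K r T l (j + 1) = l * gg K r (T - j) := by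
  unfold AA
  rw [if_neg (Nat.succ_ne_zero j), Nat.add_sub_add_right]

theorem AA_nonneg (hK : 0 ≤ K) (T l j : ℕ) : 0 ≤ AA K r T l j := by
  unfold AA
  split_ifs
  · exact le_rfl
  · exact mul_nonneg (Nat.cast_nonneg l) (gg_nonneg hK _)

theorem AA_mono (hK : 0 ≤ K) (hr : 0 < r) (T l : ℕ) : Monotone (AA K r T l) :=
  monotone_nat_of_le_succ fun j => by
    rcases j with _ | j
    · rw [AA_zero]
      exact AA_nonneg hK T l _
    · rw [AA_succ, AA_succ]
      exact mul_le_mul_of_nonneg_left (gg_anti hK hr (by omega)) (Nat.cast_nonneg l)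

theorem AA_le (hK : 0 ≤ K) (hr : 0 < r) (T l j : ℕ) : AA K r T l j ≤ l * (K / r) := by
  unfold AA
  split_ifs
  · positivity
  · exact mul_le_mul_of_nonneg_left (gg_le hK hr _) (Nat.cast_nonneg l)

theorem SS_succ (T l j : ℕ) : SS K r T l (j + 1) = SS K r T l j + AA K r T l (j + 1) := by
  unfold SS
  rw [sum_range_succ]

theorem SS_diff (T l d : ℕ) (hd : d ≤ T) : SS K r T l T - SS K r T l (T - d) = l * th K r d := by
  induction d with
  | zero => simp [th_zero]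
  | succ d ih =>
    have h1 := ih (by omega)
    obtain ⟨e, rfl⟩ : ∃ e, T = e + (d + 1) := ⟨T - (d + 1), by omega⟩
    have h2 : e + (d + 1) - d = e + 1 := by omega
    have h3 : e + (d + 1) - (d + 1) = e := by omega
    rw [h2, SS_succ, AA_succ] at h1
    have h4 : e + (d + 1) - e = d + 1 := by omega
    rw [h4] at h1
    rw [h3, th_succ]
    linarith

theorem SS_diff' (T l j : ℕ) (hj : j ≤ T) : SS K r T l T - SS K r T l j = l * th K r (T - j) := by
  have h := SS_diff (K := K) (r := r) T l (T - j) (by omega)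
  rwa [show T - (T - j) = j by omega] at h

theorem cc_step (T l : ℕ) (x0 : ℝ) (j : ℕ) :
    cc K r T l x0 j = cc K r T l x0 (j + 1) + AA K r T l (j + 1) := by
  unfold cc
  rw [SS_succ]
  ring

theorem cc_top (T l : ℕ) (x0 : ℝ) : cc K r T l x0 T = x0 := by
  unfold cc
  ring

theorem bw_anti (hK : 0 ≤ K) (a : ℝ) (T : ℕ) : Antitone (bw K r a T) := by
  intro i j hij
  unfold bw
  have := th_mono (r := r) hK (show T - j ≤ T - i by omega)
  linarith

theorem bw_pos (hK : 0 ≤ K) {a : ℝ} (ha : 0 < a) (T j : ℕ) : 0 < bw K r a T j := by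
  unfold bw
  have := th_nonneg (r := r) hK (T - j)
  linarith

/-- reflection of a sum -/
theorem sum_refl (f : ℕ → ℝ) (T : ℕ) : ∑ i ∈ range T, f (T - i) = ∑ i ∈ range T, f (i + 1) := by
  rw [← sum_range_reflect (fun i => f (i + 1)) T]
  refine sum_congr rfl fun i hi => ?_
  have := mem_range.1 hi
  rw [show T - 1 - i + 1 = T - i by omega]

/-- harmonic sums -/
theorem harm (hr : 0 < r) (T : ℕ) :
    ∑ i ∈ range T, 1 / (r ^ 2 + ((i + 1 : ℕ) : ℝ)) ≤ Real.log (r ^ 2 + T) - Real.log (r ^ 2) := by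
  induction T with
  | zero => simp
  | succ T ih =>
    rw [sum_range_succ]
    have hx : 0 < r ^ 2 + (T : ℝ) := by positivity
    have hy : 0 < r ^ 2 + ((T + 1 : ℕ) : ℝ) := by positivity
    have h1 := Real.one_sub_inv_le_log_of_pos (div_pos hy hx)
    rw [Real.log_div hy.ne' hx.ne', inv_div] at h1
    have h2 : 1 - (r ^ 2 + (T : ℝ)) / (r ^ 2 + ((T + 1 : ℕ) : ℝ)) = 1 / (r ^ 2 + ((T + 1 : ℕ) : ℝ)) := by
      field_simp
      push_cast
      ring
    rw [h2] at h1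
    linarith

theorem harm2 (hr : 0 < r) (T : ℕ) :
    ∑ i ∈ range T, r ^ 2 / (r ^ 2 + ((i + 1 : ℕ) : ℝ)) ^ 2 ≤ 1 - r ^ 2 / (r ^ 2 + T) := by
  induction T with
  | zero => simp [div_self (pow_pos hr 2).ne']
  | succ T ih =>
    rw [sum_range_succ]
    have hr2 : 0 < r ^ 2 := by positivity
    have hx : 0 < r ^ 2 + (T : ℝ) := by positivity
    have hy : r ^ 2 + ((T + 1 : ℕ) : ℝ) = (r ^ 2 + T) + 1 := by push_cast; ring
    rw [hy]
    have h1 : r ^ 2 / (r ^ 2 + T + 1) ^ 2 ≤ r ^ 2 / (r ^ 2 + T) - r ^ 2 / (r ^ 2 + T + 1) := by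
      rw [div_sub_div _ _ hx.ne' (by positivity), div_le_div_iff₀ (by positivity) (by positivity)]
      have h2 : r ^ 2 * (r ^ 2 + T + 1) - (r ^ 2 + T) * r ^ 2 = r ^ 2 := by ring
      rw [h2]
      refine mul_le_mul_of_nonneg_left ?_ hr2.le
      nlinarith
    linarith

/-- one term of the survival sum -/
theorem term_le {Lg : ℝ} (hL : 1 / 2 ≤ Lg) (hr : 0 < r) (hK : K = 10 * Real.sqrt Lg) (k : ℕ) :
    1 / ((th K r k + 8 * r) / 2) ^ 2 ≤
      4 / 25 / Lg * (1 / (r ^ 2 + (k : ℝ))) + 1 / 4 * (r ^ 2 / (r ^ 2 + (k : ℝ)) ^ 2) := by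
  have hK0 : 0 ≤ K := by rw [hK]; positivity
  have hr2 : 0 < r ^ 2 := by positivity
  have hth := th_nonneg (r := r) hK0 k
  have hLp : 0 < Lg := by linarith
  have hx : 0 < r ^ 2 + (k : ℝ) := by positivity
  rcases le_total (k : ℝ) (r ^ 2) with h | h
  · have h1 : 1 / ((th K r k + 8 * r) / 2) ^ 2 ≤ 1 / (16 * r ^ 2) := by
      refine one_div_le_one_div_of_le (by positivity) ?_
      have h2 : (4 * r) ^ 2 ≤ ((th K r k + 8 * r) / 2) ^ 2 :=
        pow_le_pow_left₀ (by positivity) (by linarith) 2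
      linarith [h2]
    have h3 : 1 / (16 * r ^ 2) ≤ 1 / 4 * (r ^ 2 / (r ^ 2 + (k : ℝ)) ^ 2) := by
      rw [one_div_mul_eq_div, div_div, div_le_div_iff₀ (by positivity) (by positivity)]
      have h4 : (r ^ 2 + (k : ℝ)) ^ 2 ≤ (2 * r ^ 2) ^ 2 :=
        pow_le_pow_left₀ hx.le (by linarith) 2
      nlinarith
    have h5 : 0 ≤ 4 / 25 / Lg * (1 / (r ^ 2 + (k : ℝ))) := by positivity
    linarith
  · have h1 : 25 * Lg * (r ^ 2 + k) ≤ th K r k ^ 2 := by
      have h2 := th_low hK0 hr k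
      have h3 : (k * gg K r k) ^ 2 ≤ th K r k ^ 2 :=
        pow_le_pow_left₀ (mul_nonneg (Nat.cast_nonneg k) (gg_nonneg hK0 k)) h2 2
      refine le_trans ?_ h3
      rw [mul_pow, gg_sq hr, hK, mul_pow, Real.sq_sqrt hLp.le, ← mul_div_assoc, le_div_iff₀ hx]
      have h6 : (r ^ 2 + (k : ℝ)) ^ 2 ≤ (2 * k) ^ 2 := pow_le_pow_left₀ hx.le (by linarith) 2
      nlinarith
    have h7 : 1 / ((th K r k + 8 * r) / 2) ^ 2 ≤ 4 / 25 / Lg * (1 / (r ^ 2 + (k : ℝ))) := by
      have h8 : 4 / 25 / Lg * (1 / (r ^ 2 + (k : ℝ))) = 1 / (25 * Lg * (r ^ 2 + k) / 4) := by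
        field_simp
      rw [h8]
      refine one_div_le_one_div_of_le (by positivity) ?_
      have h9 : (th K r k) ^ 2 ≤ (th K r k + 8 * r) ^ 2 :=
        pow_le_pow_left₀ hth (by linarith) 2
      rw [div_pow]
      linarith
    have h10 : 0 ≤ 1 / 4 * (r ^ 2 / (r ^ 2 + (k : ℝ)) ^ 2) := by positivity
    linarith

theorem log_le {Lg a : ℝ} (T : ℕ) (ha : 0 < a) (hr : r = a / 8) (hL : Lg = Real.log (2 + 64 * (T : ℝ) / a ^ 2)) :
    Real.log (r ^ 2 + T) - Real.log (r ^ 2) ≤ Lg := by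
  have hr0 : 0 < r := by rw [hr]; positivity
  rw [← Real.log_div (by positivity) (by positivity), hL]
  refine Real.log_le_log (by positivity) ?_
  rw [hr]
  have h : ((a / 8) ^ 2 + (T : ℝ)) / (a / 8) ^ 2 = 1 + 64 * T / a ^ 2 := by
    field_simp
    ring
  rw [h]
  linarith

/-- the survival sum -/
theorem surv {Lg a : ℝ} (T : ℕ) (ha : 0 < a) (hr : r = a / 8) (hL : Lg = Real.log (2 + 64 * (T : ℝ) / a ^ 2))
    (hL2 : 1 / 2 ≤ Lg) (hK : K = 10 * Real.sqrt Lg) :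
    ∑ i ∈ range T, 1 / (bw K r a T i) ^ 2 ≤ 1 / 2 := by
  have hr0 : 0 < r := by rw [hr]; positivity
  have ha8 : a = 8 * r := by rw [hr]; ring
  have hLp : 0 < Lg := by linarith
  have h1 : ∑ i ∈ range T, 1 / (bw K r a T i) ^ 2 = ∑ i ∈ range T, 1 / ((th K r (i + 1) + a) / 2) ^ 2 :=
    sum_refl (fun k => 1 / ((th K r k + a) / 2) ^ 2) T
  rw [h1]
  calc ∑ i ∈ range T, 1 / ((th K r (i + 1) + a) / 2) ^ 2
      ≤ ∑ i ∈ range T, (4 / 25 / Lg * (1 / (r ^ 2 + ((i + 1 : ℕ) : ℝ))) +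
          1 / 4 * (r ^ 2 / (r ^ 2 + ((i + 1 : ℕ) : ℝ)) ^ 2)) :=
        sum_le_sum fun i _ => by
          rw [ha8]
          exact term_le hL2 hr0 hK (i + 1)
    _ = 4 / 25 / Lg * ∑ i ∈ range T, 1 / (r ^ 2 + ((i + 1 : ℕ) : ℝ)) +
          1 / 4 * ∑ i ∈ range T, r ^ 2 / (r ^ 2 + ((i + 1 : ℕ) : ℝ)) ^ 2 := by
        rw [sum_add_distrib, mul_sum, mul_sum]
    _ ≤ 4 / 25 / Lg * Lg + 1 / 4 * 1 := by
        refine add_le_add (mul_le_mul_of_nonneg_left ((harm hr0 T).trans (log_le T ha hr hL)) (by positivity))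
          (mul_le_mul_of_nonneg_left ((harm2 hr0 T).trans ?_) (by norm_num))
        have : 0 ≤ r ^ 2 / (r ^ 2 + (T : ℝ)) := by positivity
        linarith
    _ ≤ 1 / 2 := by
        rw [div_mul_cancel₀ _ hLp.ne']
        norm_num

/-- summation by parts -/
theorem abel (A H : ℕ → ℝ) (n : ℕ) :
    ∑ i ∈ range n, (A (i + 1) - A i) * H i =
      A n * H n - A 0 * H 0 - ∑ i ∈ range n, A (i + 1) * (H (i + 1) - H i) := by
  induction n with
  | zero => simp
  | succ n ih =>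
    rw [sum_range_succ, sum_range_succ, ih]
    ring

/-- the cost of the drift -/
theorem cost {Lg a x0 : ℝ} (T l m : ℕ) (hl : l ≤ m) (hl' : l + 1 ≤ m) (hT : 1 ≤ T) (ha : 0 < a) (hr : r = a / 8)
    (hL : Lg = Real.log (2 + 64 * (T : ℝ) / a ^ 2)) (hL2 : 1 / 2 ≤ Lg) (hK : K = 10 * Real.sqrt Lg) :
    ∑ i ∈ range T, (AA K r T l (i + 1) - AA K r T l i) * (cc K r T l x0 i + bw K r a T i - x0) ≤
      220 * (m : ℝ) ^ 2 * Lg ^ 2 := by
  have hr0 : 0 < r := by rw [hr]; positivity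
  have hLp : 0 < Lg := by linarith
  have hK0 : 0 ≤ K := by rw [hK]; positivity
  rw [abel (AA K r T l) (fun i => cc K r T l x0 i + bw K r a T i - x0) T, AA_zero, zero_mul, sub_zero]
  have h1 : cc K r T l x0 T + bw K r a T T - x0 = a / 2 := by
    rw [cc_top]
    unfold bw
    rw [Nat.sub_self, th_zero]
    ring
  have h2 : ∀ i ∈ range T, AA K r T l (i + 1) * ((cc K r T l x0 (i + 1) + bw K r a T (i + 1) - x0) -
      (cc K r T l x0 i + bw K r a T i - x0)) = -(l * (l + 1 / 2) * (gg K r (T - i)) ^ 2) := by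
    intro i hi
    have hi' := mem_range.1 hi
    obtain ⟨e, rfl⟩ : ∃ e, T = i + (e + 1) := ⟨T - i - 1, by omega⟩
    rw [cc_step (x0 := x0) _ _ i, AA_succ]
    unfold bw
    rw [show i + (e + 1) - (i + 1) = e by omega, show i + (e + 1) - i = e + 1 by omega, th_succ]
    ring
  rw [h1, sum_congr rfl h2, sum_neg_distrib, sub_neg_eq_add, ← mul_sum,
    sum_refl (fun k => (gg K r k) ^ 2) T]
  have h3 : ∑ i ∈ range T, (gg K r (i + 1)) ^ 2 ≤ 100 * Lg ^ 2 := by
    have h4 : ∀ i ∈ range T, (gg K r (i + 1)) ^ 2 = K ^ 2 * (1 / (r ^ 2 + ((i + 1 : ℕ) : ℝ))) := by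
      intro i _
      rw [gg_sq hr0, mul_one_div]
    rw [sum_congr rfl h4, ← mul_sum]
    calc K ^ 2 * ∑ i ∈ range T, 1 / (r ^ 2 + ((i + 1 : ℕ) : ℝ)) ≤ K ^ 2 * Lg :=
          mul_le_mul_of_nonneg_left ((harm hr0 T).trans (log_le T ha hr hL)) (by positivity)
      _ = 100 * Lg ^ 2 := by
          rw [hK, mul_pow, Real.sq_sqrt hLp.le]
          ring
  have h5 : AA K r T l T * (a / 2) ≤ 40 * m * Real.sqrt Lg := by
    have h6 := AA_le hK0 hr0 T l T
    have h7 : K / r = 80 * Real.sqrt Lg / a := by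
      rw [hK, hr]
      field_simp
      norm_num
    rw [h7] at h6
    calc AA K r T l T * (a / 2) ≤ l * (80 * Real.sqrt Lg / a) * (a / 2) :=
          mul_le_mul_of_nonneg_right h6 (by positivity)
      _ = 40 * l * Real.sqrt Lg := by
          field_simp
          ring
      _ ≤ 40 * m * Real.sqrt Lg := by
          have : (l : ℝ) ≤ m := by exact_mod_cast hl
          have h9 := Real.sqrt_nonneg Lg
          nlinarith
  have h8 : Real.sqrt Lg ≤ 3 * Lg ^ 2 := by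
    have h9 : Real.sqrt Lg ≤ (1 + Lg) / 2 := by
      have := Real.sq_sqrt hLp.le
      nlinarith [sq_nonneg (Real.sqrt Lg - 1)]
    nlinarith
  have hm1 : (1 : ℝ) ≤ m := by exact_mod_cast (by omega : 1 ≤ m)
  have hlm : (l : ℝ) + 1 ≤ m := by exact_mod_cast hl'
  have hl0 : (0 : ℝ) ≤ l := Nat.cast_nonneg l
  have h10 : (l : ℝ) * (l + 1 / 2) ≤ (m : ℝ) ^ 2 := by nlinarith
  have h11 : (l : ℝ) * (l + 1 / 2) * ∑ i ∈ range T, (gg K r (i + 1)) ^ 2 ≤ (m : ℝ) ^ 2 * (100 * Lg ^ 2) :=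
    mul_le_mul h10 h3 (sum_nonneg fun i _ => sq_nonneg _) (by positivity)
  have h12 : 40 * (m : ℝ) * Real.sqrt Lg ≤ 40 * (m : ℝ) ^ 2 * (3 * Lg ^ 2) := by
    refine mul_le_mul (by nlinarith) h8 (Real.sqrt_nonneg _) (by positivity)
  linarith

end Pool.Agent.H405.CW
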